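import Pool.Agent.W312.WT.Stm

/-!
# The lattice of an instance and the candidate times (helper377)
-/

set_option autoImplicit false

namespace Pool.Agent.W377.WT

open Pool.Agent.W312.WT

theorem proof_SLat : Pool.Agent.W312.WT.SLat := by
  intro p L hp
  refine ⟨⟨Or.inl (dvd_zero _), ?_⟩, ?_, ?_⟩
  · intro k s hs
    rcases hs with h | ⟨x, hx, h | h⟩
    · exact Or.inl (dvd_sub (dvd_mul_left _ _) h)
    · refine Or.inr ⟨x, hx, Or.inr ?_⟩
      have e : k * (p : ℤ) - s + x.2.1 = k * p - (s - x.2.1) := by ring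
      rw [e]
      exact dvd_sub (dvd_mul_left _ _) h
    · refine Or.inr ⟨x, hx, Or.inl ?_⟩
      have e : k * (p : ℤ) - s - x.2.1 = k * p - (s + x.2.1) := by ring
      rw [e]
      exact dvd_sub (dvd_mul_left _ _) h
  · intro x hx
    exact Or.inr ⟨x, hx, Or.inl (by rw [sub_self]; exact dvd_zero _)⟩
  · intro m hm hle
    have hk : m / p < L.length + 1 := by
      have : m / p ≤ L.length := by
        calc m / p ≤ (L.length * p) / p := Nat.div_le_div_right hle
          _ = L.length := Nat.mul_div_cancel _ hp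
      omega
    have hr : m % p ∈ resid p L := by
      rcases hm with h | ⟨x, hx, h | h⟩
      · have h' : p ∣ m := by exact_mod_cast h
        rw [Nat.mod_eq_zero_of_dvd h']
        exact List.mem_cons_self
      · refine List.mem_cons_of_mem _ (List.mem_flatMap.2 ⟨x, hx, ?_⟩)
        have h1 : (x.2.1 : ℤ) ≡ (m : ℤ) [ZMOD (p : ℤ)] := Int.modEq_iff_dvd.2 h
        have h2 : x.2.1 ≡ m [MOD p] := Int.natCast_modEq_iff.1 h1
        have h3 : m % p = x.2.1 % p := h2.symm
        rw [h3]
        exact List.mem_cons_self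
      · refine List.mem_cons_of_mem _ (List.mem_flatMap.2 ⟨x, hx, ?_⟩)
        have hlt : x.2.1 % p < p := Nat.mod_lt _ hp
        have h1 : ((p - x.2.1 % p : ℕ) : ℤ) ≡ (m : ℤ) [ZMOD (p : ℤ)] := by
          apply Int.modEq_iff_dvd.2
          have e0 : (x.2.1 : ℤ) = p * ((x.2.1 / p : ℕ) : ℤ) + ((x.2.1 % p : ℕ) : ℤ) := by
            exact_mod_cast (Nat.div_add_mod x.2.1 p).symm
          have e : (m : ℤ) - ((p - x.2.1 % p : ℕ) : ℤ) =
              (m + x.2.1) - p * (1 + ((x.2.1 / p : ℕ) : ℤ)) := by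
            rw [Nat.cast_sub hlt.le]
            linear_combination -e0
          rw [e]
          exact dvd_sub h (dvd_mul_right _ _)
        have h2 : (p - x.2.1 % p) ≡ m [MOD p] := Int.natCast_modEq_iff.1 h1
        have h3 : m % p = (p - x.2.1 % p) % p := h2.symm
        rw [h3]
        exact List.mem_cons_of_mem _ List.mem_cons_self
    refine List.mem_flatMap.2 ⟨m / p, List.mem_range.2 hk, List.mem_map.2 ⟨m % p, hr, ?_⟩⟩
    rw [Nat.mul_comm]
    exact Nat.div_add_mod m p

end Pool.Agent.W377.WT
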